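import Mathlib

/-!
# Thin, residually connected coset geometries of C-groups are flag-transitive
-/

set_option autoImplicit false

namespace Pool.Agent.Results.MP_0d307c_co.FlagTransitive

universe u

variable {G : Type u} [Group G] {r : ℕ}

/-- the subgroup `⟨ρ_i : i ∈ I⟩` -/
def par (ρ : Fin r → G) (I : Set (Fin r)) : Subgroup G := Subgroup.closure (ρ '' I)

/-- `(G, {ρ_0, …, ρ_{r-1}})` is a C-group of rank `r`: the `ρ_i` are distinct involutions
generating `G` which satisfy the intersection property. -/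
structure IsCGroup (ρ : Fin r → G) : Prop where
  inj : Function.Injective ρ
  invol : ∀ i, ρ i ≠ 1 ∧ ρ i * ρ i = 1
  gen : Subgroup.closure (Set.range ρ) = ⊤
  ip : ∀ I J : Set (Fin r), par ρ I ⊓ par ρ J = par ρ (I ∩ J)

/-- The maximal parabolic subgroup `G_i = ⟨ρ_j : j ≠ i⟩`. -/
def Gi (ρ : Fin r → G) (i : Fin r) : Subgroup G := par ρ {j | j ≠ i}

/-- The right coset `G_i g`. -/
def rc (ρ : Fin r → G) (i : Fin r) (g : G) : Set G := {x | ∃ h ∈ Gi ρ i, x = h * g}

/-- The elements of the coset geometry: elements of type `i` are the right cosets `G_i g`. -/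
@[ext] structure Elt (ρ : Fin r → G) where
  typ : Fin r
  cos : Set G
  is_cos : ∃ g, cos = rc ρ typ g

/-- Incidence: the cosets meet. -/
def Inc {ρ : Fin r → G} (x y : Elt ρ) : Prop := (x.cos ∩ y.cos).Nonempty

/-- Flags: sets of pairwise incident elements. -/
def IsFlag {ρ : Fin r → G} (F : Set (Elt ρ)) : Prop := ∀ x ∈ F, ∀ y ∈ F, Inc x y

/-- Chambers: flags containing an element of each type. -/
def IsChamber {ρ : Fin r → G} (F : Set (Elt ρ)) : Prop := IsFlag F ∧ ∀ i, ∃ x ∈ F, x.typ = i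

/-- The residue of a flag. -/
def res {ρ : Fin r → G} (F : Set (Elt ρ)) : Set (Elt ρ) :=
  {x | x ∉ F ∧ (∀ y ∈ F, y.typ ≠ x.typ) ∧ ∀ y ∈ F, Inc x y}

theorem Inc.symm {ρ : Fin r → G} {x y : Elt ρ} (h : Inc x y) : Inc y x := by
  unfold Inc at *; rwa [Set.inter_comm]

/-- The incidence graph. -/
def IG (ρ : Fin r → G) : SimpleGraph (Elt ρ) where
  Adj x y := x ≠ y ∧ Inc x y
  symm := ⟨fun _ _ h => ⟨h.1.symm, h.2.symm⟩⟩
  loopless := ⟨fun _ h => h.1 rfl⟩

/-- Thin: every flag with `r - 1` elements is in exactly two chambers. -/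
def Thin (ρ : Fin r → G) : Prop := ∀ F : Set (Elt ρ), IsFlag F → F.ncard + 1 = r →
  {C : Set (Elt ρ) | IsChamber C ∧ F ⊆ C}.ncard = 2

/-- Residually connected: the residues of rank at least two have a connected incidence graph, and
the residues of rank one are nonempty. -/
def ResConn (ρ : Fin r → G) : Prop :=
  (∀ F : Set (Elt ρ), IsFlag F → F.ncard + 2 ≤ r → ((IG ρ).induce (res F)).Connected) ∧
  (∀ F : Set (Elt ρ), IsFlag F → F.ncard + 1 = r → (res F).Nonempty)

/-- The action of `G` on the elements by right multiplication. -/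
def act {ρ : Fin r → G} (g : G) (x : Elt ρ) : Elt ρ where
  typ := x.typ
  cos := (fun y => y * g) '' x.cos
  is_cos := by
    obtain ⟨h, hh⟩ := x.is_cos
    refine ⟨h * g, ?_⟩
    rw [hh]
    ext y
    constructor
    · rintro ⟨z, ⟨k, hk, rfl⟩, rfl⟩
      exact ⟨k, hk, mul_assoc _ _ _⟩
    · rintro ⟨k, hk, rfl⟩
      exact ⟨k * h, ⟨k, hk, rfl⟩, mul_assoc _ _ _⟩

/-- Flag-transitive: `G` is transitive on the chambers. -/
def FlagTrans (ρ : Fin r → G) : Prop := ∀ C D : Set (Elt ρ), IsChamber C → IsChamber D →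
  ∃ g : G, act g '' C = D

section
variable {ρ : Fin r → G}

theorem mem_rc {i : Fin r} {g x : G} : x ∈ rc ρ i g ↔ x * g⁻¹ ∈ Gi ρ i := by
  constructor
  · rintro ⟨h, hh, rfl⟩
    rwa [mul_inv_cancel_right]
  · intro h
    exact ⟨x * g⁻¹, h, by group⟩

theorem rc_eq {i : Fin r} {g h : G} (hgh : g * h⁻¹ ∈ Gi ρ i) : rc ρ i g = rc ρ i h := by
  ext x
  rw [mem_rc, mem_rc]
  have e : x * h⁻¹ = (x * g⁻¹) * (g * h⁻¹) := by group
  rw [e]
  exact (Subgroup.mul_mem_cancel_right _ hgh).symm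

/-- the element `G_i g` -/
def mkE (ρ : Fin r → G) (i : Fin r) (g : G) : Elt ρ := ⟨i, rc ρ i g, g, rfl⟩

theorem mkE_eq {i : Fin r} {g h : G} (hgh : g * h⁻¹ ∈ Gi ρ i) : mkE ρ i g = mkE ρ i h := by
  apply Elt.ext
  · rfl
  · exact rc_eq hgh

theorem self_mem (i : Fin r) (g : G) : g ∈ rc ρ i g := ⟨1, one_mem _, (one_mul g).symm⟩

theorem eq_mkE (x : Elt ρ) {g : G} (hg : g ∈ x.cos) : x = mkE ρ x.typ g := by
  obtain ⟨h, hh⟩ := x.is_cos
  apply Elt.ext
  · rfl
  · show x.cos = rc ρ x.typ g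
    rw [hh] at hg ⊢
    have := mem_rc.1 hg
    exact (rc_eq this).symm

theorem eq_of_inc {x y : Elt ρ} (ht : x.typ = y.typ) (h : Inc x y) : x = y := by
  obtain ⟨g, h1, h2⟩ := h
  rw [eq_mkE x h1, eq_mkE y h2, ht]

theorem flag_inj {F : Set (Elt ρ)} (hF : IsFlag F) : Set.InjOn Elt.typ F :=
  fun x hx y hy h => eq_of_inc h (hF x hx y hy)

theorem flag_finite {F : Set (Elt ρ)} (hF : IsFlag F) : F.Finite :=
  Set.Finite.of_finite_image (Set.toFinite _) (flag_inj hF)

theorem flag_ncard {F : Set (Elt ρ)} (hF : IsFlag F) : (Elt.typ '' F).ncard = F.ncard :=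
  (flag_inj hF).ncard_image

theorem chamber_ncard {C : Set (Elt ρ)} (hC : IsChamber C) : C.ncard = r := by
  rw [← flag_ncard hC.1]
  have : Elt.typ '' C = Set.univ := by
    rw [Set.eq_univ_iff_forall]
    intro i
    obtain ⟨x, hx, rfl⟩ := hC.2 i
    exact ⟨x, hx, rfl⟩
  rw [this, Set.ncard_univ, Nat.card_eq_fintype_card, Fintype.card_fin]

theorem chamber_of_ncard {C : Set (Elt ρ)} (hC : IsFlag C) (h : C.ncard = r) : IsChamber C := by
  refine ⟨hC, fun i => ?_⟩
  rw [← flag_ncard hC] at h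
  have : Elt.typ '' C = Set.univ := by
    apply Set.eq_of_subset_of_ncard_le (Set.subset_univ _)
    rw [h, Set.ncard_univ, Nat.card_eq_fintype_card, Fintype.card_fin]
  have hi : i ∈ Elt.typ '' C := by rw [this]; exact Set.mem_univ i
  obtain ⟨x, hx, rfl⟩ := hi
  exact ⟨x, hx, rfl⟩

theorem flag_le {F : Set (Elt ρ)} (hF : IsFlag F) : F.ncard ≤ r := by
  rw [← flag_ncard hF]
  have := Set.ncard_le_ncard (Set.subset_univ (Elt.typ '' F))
  rwa [Set.ncard_univ, Nat.card_eq_fintype_card, Fintype.card_fin] at this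

theorem flag_insert {F : Set (Elt ρ)} (hF : IsFlag F) {x : Elt ρ} (hx : x ∈ res F) :
    IsFlag (insert x F) := by
  rintro y (rfl | hy) z (rfl | hz)
  · obtain ⟨g, hg⟩ := z.is_cos
    exact ⟨g, by rw [hg]; exact ⟨self_mem _ _, self_mem _ _⟩⟩
  · exact hx.2.2 z hz
  · exact (hx.2.2 y hy).symm
  · exact hF y hy z hz

theorem ncard_insert {F : Set (Elt ρ)} (hF : IsFlag F) {x : Elt ρ} (hx : x ∈ res F) :
    (insert x F).ncard = F.ncard + 1 :=
  Set.ncard_insert_of_notMem hx.1 (flag_finite hF)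

theorem mem_res {F C : Set (Elt ρ)} (hC : IsFlag C) (hFC : F ⊆ C) {x : Elt ρ} (hx : x ∈ C)
    (hxF : x ∉ F) : x ∈ res F := by
  refine ⟨hxF, fun y hy h => ?_, fun y hy => hC x hx y (hFC hy)⟩
  have := flag_inj hC (hFC hy) hx h
  exact hxF (this ▸ hy)

/-- the chamber `{G_i g : i}` -/
def Ch (ρ : Fin r → G) (g : G) : Set (Elt ρ) := Set.range (fun i => mkE ρ i g)

theorem Ch_chamber (g : G) : IsChamber (Ch ρ g) := by
  refine ⟨?_, fun i => ⟨mkE ρ i g, ⟨i, rfl⟩, rfl⟩⟩
  rintro _ ⟨i, rfl⟩ _ ⟨j, rfl⟩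
  exact ⟨g, self_mem _ _, self_mem _ _⟩

/-- extension of flags to chambers -/
theorem extend (hR : ResConn ρ) (n : ℕ) : ∀ F : Set (Elt ρ), IsFlag F → F.ncard + n = r →
    ∃ C, IsChamber C ∧ F ⊆ C := by
  induction n with
  | zero => intro F hF h; exact ⟨F, chamber_of_ncard hF (by omega), subset_rfl⟩
  | succ n ih =>
    intro F hF h
    obtain ⟨x, hx⟩ : (res F).Nonempty := by
      rcases Nat.eq_zero_or_pos n with rfl | hn
      · exact hR.2 F hF (by omega)
      · obtain ⟨x⟩ := (hR.1 F hF (by omega)).nonempty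
        exact ⟨x, x.2⟩
    obtain ⟨C, hC, hC'⟩ := ih (insert x F) (flag_insert hF hx) (by rw [ncard_insert hF hx]; omega)
    exact ⟨C, hC, (Set.subset_insert x F).trans hC'⟩

theorem rho_notMem (hρ : IsCGroup ρ) (i : Fin r) : ρ i ∉ Gi ρ i := by
  intro h
  have h1 : ρ i ∈ par ρ {i} ⊓ par ρ {j | j ≠ i} :=
    ⟨Subgroup.subset_closure ⟨i, rfl, rfl⟩, h⟩
  rw [hρ.ip] at h1
  have e : ({i} ∩ {j | j ≠ i} : Set (Fin r)) = ∅ := by
    ext j; simp
  rw [e, par, Set.image_empty, Subgroup.closure_empty, Subgroup.mem_bot] at h1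
  exact (hρ.invol i).1 h1

theorem adj_closed (hρ : IsCGroup ρ) (hT : Thin ρ) {F : Set (Elt ρ)} (hF : IsFlag F)
    (hn : F.ncard + 1 = r) {g : G} (hFC : F ⊆ Ch ρ g) {D : Set (Elt ρ)} (hD : IsChamber D)
    (hFD : F ⊆ D) : ∃ h, D = Ch ρ h := by
  obtain ⟨i, hi⟩ : ∃ i, mkE ρ i g ∉ F := by
    by_contra hc
    push Not at hc
    have h1 : Ch ρ g ⊆ F := by
      rintro _ ⟨i, rfl⟩; exact hc i
    have h2 := Set.ncard_le_ncard h1 (flag_finite hF)
    rw [chamber_ncard (Ch_chamber g)] at h2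
    omega
  have hF2 : F ⊆ Ch ρ (ρ i * g) := by
    intro y hy
    obtain ⟨j, rfl⟩ := hFC hy
    have hj : j ≠ i := by rintro rfl; exact hi hy
    refine ⟨j, mkE_eq ?_⟩
    rw [mul_inv_cancel_right]
    exact Subgroup.subset_closure ⟨i, hj.symm, rfl⟩
  have hne : Ch ρ (ρ i * g) ≠ Ch ρ g := by
    intro he
    have h1 : mkE ρ i (ρ i * g) ∈ Ch ρ g := by rw [← he]; exact ⟨i, rfl⟩
    obtain ⟨j, hj⟩ := h1
    have hji : j = i := congrArg Elt.typ hj
    subst hji
    have h2 : rc ρ j g = rc ρ j (ρ j * g) := congrArg Elt.cos hj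
    have h3 : ρ j * g ∈ rc ρ j g := by rw [h2]; exact self_mem _ _
    rw [mem_rc, mul_inv_cancel_right] at h3
    exact rho_notMem hρ j h3
  have h2 := hT F hF hn
  rw [Set.ncard_eq_two] at h2
  obtain ⟨a, b, hab, hS⟩ := h2
  have m1 : Ch ρ g ∈ ({a, b} : Set (Set (Elt ρ))) := by rw [← hS]; exact ⟨Ch_chamber g, hFC⟩
  have m2 : Ch ρ (ρ i * g) ∈ ({a, b} : Set (Set (Elt ρ))) := by
    rw [← hS]; exact ⟨Ch_chamber _, hF2⟩
  have m3 : D ∈ ({a, b} : Set (Set (Elt ρ))) := by rw [← hS]; exact ⟨hD, hFD⟩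
  rcases m1 with m1 | m1 <;> rcases m2 with m2 | m2 <;> rcases m3 with m3 | m3
  · exact ⟨g, by rw [m1, m3]⟩
  · exact absurd (m2.trans m1.symm) hne
  · exact ⟨g, by rw [m1, m3]⟩
  · exact ⟨_, by rw [m2]; exact m3⟩
  · exact ⟨_, by rw [m2]; exact m3⟩
  · exact ⟨g, by rw [m1]; exact m3⟩
  · exact absurd (m2.trans (Set.mem_singleton_iff.1 m1).symm) hne
  · exact ⟨g, by rw [m1]; exact m3⟩

theorem gallery (hρ : IsCGroup ρ) (hT : Thin ρ) (hR : ResConn ρ) (n : ℕ) :
    ∀ F : Set (Elt ρ), IsFlag F → F.ncard + n = r → ∀ g, F ⊆ Ch ρ g → ∀ D, IsChamber D → F ⊆ D →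
      ∃ h, D = Ch ρ h := by
  induction n with
  | zero =>
    intro F hF hn g hFC D hD hFD
    refine ⟨g, ?_⟩
    have h1 : F = D := Set.eq_of_subset_of_ncard_le hFD
      (by rw [chamber_ncard hD]; omega) (flag_finite hD.1)
    have h2 : F = Ch ρ g := Set.eq_of_subset_of_ncard_le hFC
      (by rw [chamber_ncard (Ch_chamber g)]; omega) (flag_finite (Ch_chamber g).1)
    rw [← h1, ← h2]
  | succ n ih =>
    intro F hF hn g hFC D hD hFD
    rcases Nat.eq_zero_or_pos n with rfl | hpos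
    · exact adj_closed hρ hT hF (by omega) hFC hD hFD
    · have hcon := hR.1 F hF (by omega)
      have hex : ∀ C : Set (Elt ρ), IsChamber C → F ⊆ C → ∃ x ∈ C, x ∉ F := by
        intro C hC hFC
        by_contra hc
        push Not at hc
        have := Set.ncard_le_ncard (show C ⊆ F from hc) (flag_finite hF)
        rw [chamber_ncard hC] at this
        omega
      obtain ⟨x, hxC, hxF⟩ := hex _ (Ch_chamber g) hFC
      obtain ⟨y, hyD, hyF⟩ := hex _ hD hFD
      have hx : x ∈ res F := mem_res (Ch_chamber g).1 hFC hxC hxF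
      have hy : y ∈ res F := mem_res hD.1 hFD hyD hyF
      have key : ∀ z : res F, Relation.ReflTransGen ((IG ρ).induce (res F)).Adj ⟨x, hx⟩ z →
          ∀ D, IsChamber D → insert (z : Elt ρ) F ⊆ D → ∃ h, D = Ch ρ h := by
        intro z hz
        induction hz with
        | refl =>
          intro D hD hFD
          exact ih (insert x F) (flag_insert hF hx) (by rw [ncard_insert hF hx]; omega) g
            (Set.insert_subset hxC hFC) D hD hFD
        | @tail z w _ hzw ihz =>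
          intro D hD hFD
          have hinc : z.1 ≠ w.1 ∧ Inc z.1 w.1 := hzw
          have hw' : w.1 ∈ res (insert z.1 F) := by
            refine ⟨?_, ?_, ?_⟩
            · rintro (h | h)
              · exact hinc.1 h.symm
              · exact w.2.1 h
            · rintro y' (rfl | hy')
              · intro ht
                exact hinc.1 (eq_of_inc ht hinc.2)
              · exact w.2.2.1 y' hy'
            · rintro y' (rfl | hy')
              · exact hinc.2.symm
              · exact w.2.2.2 y' hy'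
          have hfl := flag_insert hF z.2
          obtain ⟨E, hE, hE'⟩ := extend hR (n - 1) (insert w.1 (insert z.1 F))
            (flag_insert hfl hw') (by rw [ncard_insert hfl hw', ncard_insert hF z.2]; omega)
          obtain ⟨h, rfl⟩ := ihz E hE ((Set.subset_insert _ _).trans hE')
          exact ih (insert w.1 F) (flag_insert hF w.2) (by rw [ncard_insert hF w.2]; omega) h
            ((Set.insert_subset_insert (Set.subset_insert _ _)).trans hE') D hD hFD
      have hreach := hcon.preconnected ⟨x, hx⟩ ⟨y, hy⟩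
      rw [SimpleGraph.reachable_iff_reflTransGen] at hreach
      exact key ⟨y, hy⟩ hreach D hD (Set.insert_subset hyD hFD)

theorem act_Ch (g h : G) : act g '' Ch ρ h = Ch ρ (h * g) := by
  have key : ∀ i, act g (mkE ρ i h) = mkE ρ i (h * g) := by
    intro i
    apply Elt.ext
    · rfl
    · show (fun y => y * g) '' rc ρ i h = rc ρ i (h * g)
      ext y
      constructor
      · rintro ⟨z, ⟨k, hk, rfl⟩, rfl⟩
        exact ⟨k, hk, mul_assoc _ _ _⟩
      · rintro ⟨k, hk, rfl⟩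
        exact ⟨k * h, ⟨k, hk, rfl⟩, mul_assoc _ _ _⟩
  ext x
  constructor
  · rintro ⟨_, ⟨i, rfl⟩, rfl⟩
    exact ⟨i, (key i).symm⟩
  · rintro ⟨i, rfl⟩
    exact ⟨_, ⟨i, rfl⟩, key i⟩

end

/-- **For every C-group (of any rank `r`), if its coset geometry is thin and residually connected
then it is flag-transitive.** -/
theorem result {G : Type u} [Group G] {r : ℕ} (ρ : Fin r → G) (hρ : IsCGroup ρ) (hT : Thin ρ)
    (hR : ResConn ρ) : FlagTrans ρ := by
  intro C D hC hD
  have h0 : IsFlag (∅ : Set (Elt ρ)) := fun x hx => absurd hx (Set.notMem_empty x)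
  have key := gallery hρ hT hR r ∅ h0 (by rw [Set.ncard_empty, zero_add]) 1 (Set.empty_subset _)
  obtain ⟨g, rfl⟩ := key C hC (Set.empty_subset _)
  obtain ⟨h, rfl⟩ := key D hD (Set.empty_subset _)
  refine ⟨g⁻¹ * h, ?_⟩
  rw [act_Ch, mul_inv_cancel_left]

end Pool.Agent.Results.MP_0d307c_co.FlagTransitive
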